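import Pool.Agent.H87.CLG.Targets

/-!
# MP_335823_al, row HIG: Higman's lemma for monomials
-/

set_option autoImplicit false

open MvPolynomial
open scoped commutatorElement

namespace Pool.Agent.H46.CLG

open Pool.Agent.H87.CLG

universe u v

noncomputable section

theorem exists_N {Λ : Type} (u : Mo Λ) : ∃ N : ℕ, ∀ i l, N ≤ i → u (i, l) = 0 := by
  refine ⟨(u.support.sup Prod.fst) + 1, fun i l hi => ?_⟩
  by_contra h
  have h1 := Finset.le_sup (f := Prod.fst) (Finsupp.mem_support_iff.2 h)
  simp only at h1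
  omega

/-- a bound of the support -/
def NN {Λ : Type} (u : Mo Λ) : ℕ := (exists_N u).choose

theorem NN_spec {Λ : Type} (u : Mo Λ) : ∀ i l, NN u ≤ i → u (i, l) = 0 := (exists_N u).choose_spec

/-- the word of an exponent -/
def W {Λ : Type} (u : Mo Λ) : List (Λ → ℕ) := List.ofFn (fun i : Fin (NN u) => fun l => u (i, l))

theorem W_length {Λ : Type} (u : Mo Λ) : (W u).length = NN u := by simp [W]

theorem W_get {Λ : Type} (u : Mo Λ) (i : ℕ) (h : i < (W u).length) :
    (W u)[i] = fun l => u (i, l) := by simp [W]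

theorem emb_of {Λ : Type} (u v : Mo Λ) (h : List.SublistForall₂ (· ≤ ·) (W u) (W v)) :
    Emb u v := by
  obtain ⟨l, hl1, hl2⟩ := List.sublistForall₂_iff.1 h
  obtain ⟨f, hf⟩ := List.sublist_iff_exists_orderEmbedding_getElem?_eq.1 hl2
  obtain ⟨hlen, hle⟩ := List.forall₂_iff_get.1 hl1
  have hσ : StrictMono f := f.strictMono
  have key : ∀ i a, u (i, a) ≤ v (f i, a) := by
    intro i a
    by_cases hi : NN u ≤ i
    · rw [NN_spec u i a hi]; exact Nat.zero_le _
    · push Not at hi
      have h1 : i < (W u).length := by rw [W_length]; exact hi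
      have h2 : i < l.length := by rw [← hlen]; exact h1
      have h3 := hf i
      rw [List.getElem?_eq_getElem h2, eq_comm, List.getElem?_eq_some_iff] at h3
      obtain ⟨h4, h5⟩ := h3
      have h6 := hle i h1 h2
      rw [List.get_eq_getElem, List.get_eq_getElem] at h6
      simp only at h6
      rw [W_get, ← h5, W_get] at h6
      exact h6 a
  refine ⟨f, hσ, fun p => ?_⟩
  have hinj : Function.Injective (Prod.map f (id : Λ → Λ)) :=
    Function.Injective.prodMap hσ.injective Function.injective_id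
  rw [shm]
  by_cases hp : p ∈ Set.range (Prod.map f (id : Λ → Λ))
  · obtain ⟨⟨i, a⟩, rfl⟩ := hp
    rw [Finsupp.mapDomain_apply hinj]
    exact key i a
  · rw [Finsupp.mapDomain_notin_range _ _ hp]
    exact Nat.zero_le _

theorem pf_HIG : T_HIG := by
  intro Λ _ f
  have h1 : (Set.univ : Set (Λ → ℕ)).PartiallyWellOrderedOn (· ≤ ·) := by
    rw [Set.partiallyWellOrderedOn_univ_iff]
    exact wellQuasiOrdered_le
  have h2 := Set.PartiallyWellOrderedOn.partiallyWellOrderedOn_sublistForall₂
    ((· ≤ ·) : (Λ → ℕ) → (Λ → ℕ) → Prop) h1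
  haveI : IsPreorder (List (Λ → ℕ)) (List.SublistForall₂ ((· ≤ ·) : (Λ → ℕ) → (Λ → ℕ) → Prop)) := {}
  obtain ⟨g, hg⟩ := h2.exists_monotone_subseq (f := fun n => W (f n)) (fun n x _ => Set.mem_univ _)
  exact ⟨g, g.strictMono, fun i j hij => emb_of _ _ (hg i j hij.le)⟩

end

end Pool.Agent.H46.CLG
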